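import Mathlib

/-! # Products of families of polynomials in disjoint sets of variables -/

set_option autoImplicit false

open MvPolynomial

namespace Pool.Agent.Helper72.SDet

universe u v w

section LI

variable {K : Type u} [Field K] {B : Type v} [Fintype B] {V : B → Type w}

/-- The part of an exponent that belongs to block `b`. -/
noncomputable def part (d : (Σ b, V b) →₀ ℕ) (b : B) : V b →₀ ℕ :=
  d.comapDomain (Sigma.mk b) (fun _ _ _ _ h => by simpa using h)

omit [Fintype B] in
theorem part_apply (d : (Σ b, V b) →₀ ℕ) (b : B) (x : V b) : part d b x = d ⟨b, x⟩ := rfl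

theorem part_sum (u : ∀ b, V b →₀ ℕ) (b : B) :
    part (∑ c, (u c).mapDomain (Sigma.mk c)) b = u b := by
  classical
  ext x
  rw [part_apply, Finsupp.finsetSum_apply, Finset.sum_eq_single b]
  · rw [Finsupp.mapDomain_apply sigma_mk_injective]
  · intro c _ hc
    rw [Finsupp.mapDomain_of_notMem_range]
    rintro ⟨y, hy⟩
    exact hc (congrArg Sigma.fst hy)
  · intro h
    exact absurd (Finset.mem_univ b) h

theorem prod_rename_monomial (u : ∀ b, V b →₀ ℕ) :
    (∏ b, rename (Sigma.mk b) (monomial (u b) (1 : K)) : MvPolynomial (Σ b, V b) K) =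
      monomial (∑ c, (u c).mapDomain (Sigma.mk c)) 1 := by
  simp only [rename_monomial]
  rw [monomial_sum_one]

/-- The functional on polynomials in all the variables which is the product of the functionals
`ψ b` on the blocks. -/
noncomputable def prodFun (ψ : ∀ b, MvPolynomial (V b) K →ₗ[K] K) :
    MvPolynomial (Σ b, V b) K →ₗ[K] K :=
  (basisMonomials (Σ b, V b) K).constr K (fun d => ∏ b, ψ b (monomial (part d b) 1))

theorem prodFun_prod (ψ : ∀ b, MvPolynomial (V b) K →ₗ[K] K) (f : ∀ b, MvPolynomial (V b) K) :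
    prodFun ψ (∏ b, rename (Sigma.mk b) (f b)) = ∏ b, ψ b (f b) := by
  classical
  let F : MultilinearMap K (fun b => MvPolynomial (V b) K) K :=
    (prodFun ψ).compMultilinearMap
      ((MultilinearMap.mkPiAlgebra K B (MvPolynomial (Σ b, V b) K)).compLinearMap
        (fun b => (rename (Sigma.mk b) : MvPolynomial (V b) K →ₐ[K]
          MvPolynomial (Σ b, V b) K).toLinearMap))
  let G : MultilinearMap K (fun b => MvPolynomial (V b) K) K :=
    (MultilinearMap.mkPiAlgebra K B K).compLinearMap ψ
  have h : F = G := by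
    refine Module.Basis.ext_multilinear (fun b => basisMonomials (V b) K) fun u => ?_
    simp only [F, G, LinearMap.compMultilinearMap_apply, MultilinearMap.compLinearMap_apply,
      MultilinearMap.mkPiAlgebra_apply, coe_basisMonomials, AlgHom.toLinearMap_apply]
    rw [prod_rename_monomial]
    have := (basisMonomials (Σ b, V b) K).constr_basis K
      (fun d => ∏ b, ψ b (monomial (part d b) 1)) (∑ c, (u c).mapDomain (Sigma.mk c))
    rw [coe_basisMonomials] at this
    rw [prodFun, this]
    exact Finset.prod_congr rfl fun b _ => by rw [part_sum]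
  have := congrArg (fun H => H f) h
  simpa only [F, G, LinearMap.compMultilinearMap_apply, MultilinearMap.compLinearMap_apply,
      MultilinearMap.mkPiAlgebra_apply, coe_basisMonomials, AlgHom.toLinearMap_apply] using this

/-- Products of linearly independent families in disjoint sets of variables are linearly
independent. -/
theorem linearIndependent_prod {ι : B → Type*} (v : ∀ b, ι b → MvPolynomial (V b) K)
    (h : ∀ b, LinearIndependent K (v b)) :
    LinearIndependent K (fun i : ∀ b, ι b =>
      (∏ b, rename (Sigma.mk b) (v b (i b)) : MvPolynomial (Σ b, V b) K)) := by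
  classical
  have hex : ∀ b, ∃ g : MvPolynomial (V b) K →ₗ[K] (ι b →₀ K),
      ∀ i, g (v b i) = Finsupp.single i 1 := by
    intro b
    obtain ⟨g, hg⟩ := (Finsupp.linearCombination K (v b)).exists_leftInverse_of_injective
      (LinearMap.ker_eq_bot.2 (h b))
    refine ⟨g, fun i => ?_⟩
    have := congrArg (fun H => H (Finsupp.single i 1)) hg
    simpa using this
  choose g hg using hex
  rw [linearIndependent_iff']
  intro s c hc j hj
  have hap := congrArg (prodFun fun b => (Finsupp.lapply (j b)).comp (g b)) hc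
  rw [map_sum, map_zero, Finset.sum_eq_single j] at hap
  · rw [map_smul, prodFun_prod] at hap
    simpa [hg] using hap
  · intro i _ hij
    rw [map_smul, prodFun_prod]
    obtain ⟨b, hb⟩ := Function.ne_iff.1 hij
    rw [Finset.prod_eq_zero (Finset.mem_univ b), smul_zero]
    simp [hg, hb]
  · intro h'
    exact absurd hj h'

end LI

section graded

variable {K : Type u} [Field K] {B : Type v} [Fintype B] {V : B → Type w}

open Module

/-- A basis of the graded pieces, all together. -/
theorem linearIndependent_graded {σ : Type w} (gr : ℕ → Submodule K (MvPolynomial σ K)) (s L : ℕ)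
    (hgr : ∀ d, gr d ≤ homogeneousSubmodule σ K (d + s)) [∀ d, FiniteDimensional K (gr d)] :
    LinearIndependent K (fun x : Σ d : Fin L, Fin (finrank K (gr d)) =>
      ((finBasis K (gr x.1) x.2 : gr x.1) : MvPolynomial σ K)) := by
  classical
  rw [Fintype.linearIndependent_iff]
  intro c hc ⟨d, i⟩
  have h1 := congrArg (homogeneousComponent (R := K) (σ := σ) ((d : ℕ) + s)) hc
  rw [map_sum, map_zero, Fintype.sum_sigma, Finset.sum_eq_single d] at h1
  · have h2 : ∑ j, c ⟨d, j⟩ • (finBasis K (gr d) j : gr d) = 0 := by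
      apply Subtype.ext
      rw [Submodule.coe_sum, Submodule.coe_zero, ← h1]
      refine Finset.sum_congr rfl fun j _ => ?_
      rw [map_smul, Submodule.coe_smul, homogeneousComponent_of_mem (hgr d (Submodule.coe_mem _)),
        if_pos rfl]
    exact Fintype.linearIndependent_iff.1 (finBasis K (gr d)).linearIndependent _ h2 i
  · intro d' _ hd
    refine Finset.sum_eq_zero fun j _ => ?_
    rw [map_smul, homogeneousComponent_of_mem (hgr d' (Submodule.coe_mem _)), if_neg, smul_zero]
    intro h
    exact hd (Fin.ext (by omega)).symm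
  · intro h
    exact absurd (Finset.mem_univ d) h

theorem graded_prod (gr : ∀ b, ℕ → Submodule K (MvPolynomial (V b) K)) (s : B → ℕ)
    (hgr : ∀ b d, gr b d ≤ homogeneousSubmodule (V b) K (d + s b))
    [∀ b d, FiniteDimensional K (gr b d)]
    (G : ℕ → Submodule K (MvPolynomial (Σ b, V b) K)) [∀ d, FiniteDimensional K (G d)]
    (hG : ∀ (d : B → ℕ) (f : ∀ b, MvPolynomial (V b) K), (∀ b, f b ∈ gr b (d b)) →
      ∏ b, rename (Sigma.mk b) (f b) ∈ G (∑ b, d b))
    (q : ℝ) (hq : 0 ≤ q) (L : ℕ) :
    ∏ b, ∑ d ∈ Finset.range L, q ^ d * (finrank K (gr b d) : ℝ) ≤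
      ∑ d ∈ Finset.range (Fintype.card B * L + 1), q ^ d * (finrank K (G d) : ℝ) := by
  classical
  let ι : B → Type := fun b => Σ d : Fin L, Fin (finrank K (gr b d))
  let v : ∀ b, ι b → MvPolynomial (V b) K := fun b x =>
    ((finBasis K (gr b x.1) x.2 : gr b x.1) : MvPolynomial (V b) K)
  have hv : ∀ b, LinearIndependent K (v b) := fun b =>
    linearIndependent_graded (gr b) (s b) L (hgr b)
  have hli := linearIndependent_prod v hv
  have hcard : ∀ e, (Finset.univ.filter fun i : ∀ b, ι b => ∑ b, ((i b).1 : ℕ) = e).card ≤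
      finrank K (G e) := by
    intro e
    let S := {i : ∀ b, ι b // ∑ b, ((i b).1 : ℕ) = e}
    have hS : LinearIndependent K (fun i : S => (⟨∏ b, rename (Sigma.mk b) (v b (i.1 b)), by
        have := hG (fun b => ((i.1 b).1 : ℕ)) (fun b => v b (i.1 b))
          (fun b => Submodule.coe_mem _)
        rwa [i.2] at this⟩ : G e)) := by
      have h1 := hli.comp (fun i : S => i.1) Subtype.val_injective
      exact LinearIndependent.of_comp (G e).subtype h1
    have h2 := hS.fintype_card_le_finrank
    rwa [Fintype.card_subtype] at h2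
  have hsum : ∀ b, ∑ d ∈ Finset.range L, q ^ d * (finrank K (gr b d) : ℝ) =
      ∑ x : ι b, q ^ (x.1 : ℕ) := by
    intro b
    rw [Fintype.sum_sigma, Finset.sum_range]
    refine Finset.sum_congr rfl fun d _ => ?_
    simp [mul_comm]
  rw [Finset.prod_congr rfl fun b _ => hsum b, Finset.prod_univ_sum]
  simp only [Fintype.piFinset_univ]
  have hle : ∀ i : ∀ b, ι b, ∑ b, ((i b).1 : ℕ) ∈ Finset.range (Fintype.card B * L + 1) := by
    intro i
    rw [Finset.mem_range]
    have : ∑ b, ((i b).1 : ℕ) ≤ ∑ b : B, L := Finset.sum_le_sum fun b _ => (i b).1.2.le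
    simp only [Finset.sum_const, Finset.card_univ, smul_eq_mul] at this
    omega
  rw [← Finset.sum_fiberwise_of_maps_to (fun i _ => hle i)]
  refine Finset.sum_le_sum fun e _ => ?_
  have h3 : ∑ i ∈ Finset.univ.filter (fun i : ∀ b, ι b => ∑ b, ((i b).1 : ℕ) = e),
      ∏ b, q ^ ((i b).1 : ℕ) = ((Finset.univ.filter
        (fun i : ∀ b, ι b => ∑ b, ((i b).1 : ℕ) = e)).card : ℝ) * q ^ e := by
    rw [← nsmul_eq_mul, ← Finset.sum_const]
    refine Finset.sum_congr rfl fun i hi => ?_
    rw [Finset.prod_pow_eq_pow_sum, (Finset.mem_filter.1 hi).2]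
  rw [h3, mul_comm]
  exact mul_le_mul_of_nonneg_left (by exact_mod_cast hcard e) (pow_nonneg hq e)

/-- The version with infinite series. -/
theorem graded_prod_tsum (gr : ∀ b, ℕ → Submodule K (MvPolynomial (V b) K)) (s : B → ℕ)
    (hgr : ∀ b d, gr b d ≤ homogeneousSubmodule (V b) K (d + s b))
    [∀ b d, FiniteDimensional K (gr b d)]
    (G : ℕ → Submodule K (MvPolynomial (Σ b, V b) K)) [∀ d, FiniteDimensional K (G d)]
    (hG : ∀ (d : B → ℕ) (f : ∀ b, MvPolynomial (V b) K), (∀ b, f b ∈ gr b (d b)) →
      ∏ b, rename (Sigma.mk b) (f b) ∈ G (∑ b, d b))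
    (q : ℝ) (hq : 0 ≤ q)
    (hs : ∀ b, Summable fun d => q ^ d * (finrank K (gr b d) : ℝ))
    (hG' : Summable fun d => q ^ d * (finrank K (G d) : ℝ)) :
    ∏ b, ∑' d, q ^ d * (finrank K (gr b d) : ℝ) ≤ ∑' d, q ^ d * (finrank K (G d) : ℝ) := by
  have h1 : Filter.Tendsto (fun L => ∏ b, ∑ d ∈ Finset.range L, q ^ d * (finrank K (gr b d) : ℝ))
      Filter.atTop (nhds (∏ b, ∑' d, q ^ d * (finrank K (gr b d) : ℝ))) :=
    tendsto_finsetProd _ fun b _ => (hs b).hasSum.tendsto_sum_nat
  refine le_of_tendsto h1 (Filter.Eventually.of_forall fun L => ?_)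
  refine (graded_prod gr s hgr G hG q hq L).trans ?_
  exact hG'.sum_le_tsum _ fun d _ => mul_nonneg (pow_nonneg hq d) (Nat.cast_nonneg _)

/-- The version with infinite series in `ℝ≥0∞` (no summability needed on the right). -/
theorem graded_prod_ennreal (gr : ∀ b, ℕ → Submodule K (MvPolynomial (V b) K)) (s : B → ℕ)
    (hgr : ∀ b d, gr b d ≤ homogeneousSubmodule (V b) K (d + s b))
    [∀ b d, FiniteDimensional K (gr b d)]
    (G : ℕ → Submodule K (MvPolynomial (Σ b, V b) K)) [∀ d, FiniteDimensional K (G d)]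
    (hG : ∀ (d : B → ℕ) (f : ∀ b, MvPolynomial (V b) K), (∀ b, f b ∈ gr b (d b)) →
      ∏ b, rename (Sigma.mk b) (f b) ∈ G (∑ b, d b))
    (q : NNReal) (F : B → NNReal)
    (hF : ∀ b, (F b : ENNReal) ≤ ∑' d, (q : ENNReal) ^ d * (finrank K (gr b d) : ENNReal)) :
    ∏ b, (F b : ENNReal) ≤ ∑' d, (q : ENNReal) ^ d * (finrank K (G d) : ENNReal) := by
  classical
  by_cases h0 : ∃ b, F b = 0
  · obtain ⟨b, hb⟩ := h0
    rw [Finset.prod_eq_zero (Finset.mem_univ b) (by rw [hb, ENNReal.coe_zero])]
    exact zero_le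
  push Not at h0
  have key : ∀ t : NNReal, t < 1 → ((∏ b, (t * F b) : NNReal) : ENNReal) ≤
      ∑' d, (q : ENNReal) ^ d * (finrank K (G d) : ENNReal) := by
    intro t ht
    have hex : ∀ b, ∃ L : ℕ, ((t * F b : NNReal) : ENNReal) ≤
        ∑ d ∈ Finset.range L, (q : ENNReal) ^ d * (finrank K (gr b d) : ENNReal) := by
      intro b
      have h1 : ((t * F b : NNReal) : ENNReal) <
          ∑' d, (q : ENNReal) ^ d * (finrank K (gr b d) : ENNReal) := by
        refine lt_of_lt_of_le ?_ (hF b)
        rw [ENNReal.coe_lt_coe]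
        exact mul_lt_of_lt_one_left (pos_iff_ne_zero.2 (h0 b)) ht
      rw [ENNReal.tsum_eq_iSup_nat] at h1
      obtain ⟨L, hL⟩ := lt_iSup_iff.1 h1
      exact ⟨L, hL.le⟩
    choose L hL using hex
    let M := ∑ b, L b
    have hM : ∀ b, (t * F b : NNReal) ≤
        ∑ d ∈ Finset.range M, q ^ d * (finrank K (gr b d) : NNReal) := by
      intro b
      rw [← ENNReal.coe_le_coe]
      refine (hL b).trans ?_
      push_cast
      exact Finset.sum_le_sum_of_subset (Finset.range_mono
        (Finset.single_le_sum (f := L) (fun _ _ => Nat.zero_le _) (Finset.mem_univ b)))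
    have h2 := graded_prod gr s hgr G hG (q : ℝ) q.2 M
    have h3 : ∏ b, ∑ d ∈ Finset.range M, q ^ d * (finrank K (gr b d) : NNReal) ≤
        ∑ d ∈ Finset.range (Fintype.card B * M + 1), q ^ d * (finrank K (G d) : NNReal) := by
      rw [← NNReal.coe_le_coe]
      push_cast
      exact h2
    have h4 := (Finset.prod_le_prod' (fun b (_ : b ∈ Finset.univ) => hM b)).trans h3
    refine (ENNReal.coe_le_coe.2 h4).trans ?_
    push_cast
    exact ENNReal.sum_le_tsum _
  have hlim : Filter.Tendsto (fun t : NNReal => ((∏ b, (t * F b) : NNReal) : ENNReal))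
      (nhdsWithin 1 (Set.Iio 1)) (nhds ((∏ b, (1 * F b) : NNReal) : ENNReal)) := by
    refine Filter.Tendsto.mono_left ?_ nhdsWithin_le_nhds
    refine (ENNReal.continuous_coe.tendsto _).comp ?_
    exact (continuous_finsetProd _ fun b _ => continuous_id.mul continuous_const).tendsto _
  have hne : (nhdsWithin (1 : NNReal) (Set.Iio 1)).NeBot :=
    nhdsLT_neBot_of_exists_lt ⟨0, zero_lt_one⟩
  have h5 := le_of_tendsto hlim (Filter.eventually_of_mem self_mem_nhdsWithin key)
  simpa using h5

end graded

end Pool.Agent.Helper72.SDet
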