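import Pool.Agent.Helper55.SD.Defs
import Pool.Agent.Helper72.SDet.Prod
import Pool.Agent.Helper86.SDET.LC

/-! # SDET: the shifts of the products over the blocks -/

set_option autoImplicit false

open MvPolynomial Finset
open scoped BigOperators ENNReal

namespace Pool.Agent.Helper72.SDet

universe u v w

open Module

theorem iSup_mul_iSup_of_monotone {f g : ℕ → ℝ≥0∞} (hf : Monotone f) (hg : Monotone g) :
    (⨆ n, f n) * (⨆ n, g n) = ⨆ n, f n * g n := by
  apply le_antisymm
  · rw [ENNReal.iSup_mul]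
    refine iSup_le fun i => ?_
    rw [ENNReal.mul_iSup]
    refine iSup_le fun j => ?_
    exact (mul_le_mul' (hf (le_max_left i j)) (hg (le_max_right i j))).trans
      (le_iSup (fun n => f n * g n) (max i j))
  · exact iSup_le fun n => mul_le_mul' (le_iSup f n) (le_iSup g n)

theorem prod_iSup_of_monotone {B : Type v} (s : Finset B) (f : B → ℕ → ℝ≥0∞)
    (hf : ∀ b, Monotone (f b)) : ∏ b ∈ s, ⨆ n, f b n = ⨆ n, ∏ b ∈ s, f b n := by
  classical
  induction s using Finset.induction_on with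
  | empty => simp
  | insert a s ha ih =>
    simp only [Finset.prod_insert ha]
    rw [ih, iSup_mul_iSup_of_monotone (hf a)]
    exact fun i j hij => Finset.prod_le_prod' fun b _ => hf b hij

variable {K : Type u} [Field K]

instance finiteDimensional_homog {σ : Type*} [Finite σ] (n : ℕ) :
    FiniteDimensional K (homogeneousSubmodule σ K n) :=
  Module.Finite.iff_fg.2 (weightedHomogeneousSubmodule_fg K 1 (fun _ => one_ne_zero) n)

/-- The version with infinite series in `ℝ≥0∞`. -/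
theorem graded_prod_series {B : Type v} [Fintype B] {V : B → Type w}
    (gr : ∀ b, ℕ → Submodule K (MvPolynomial (V b) K)) (s : B → ℕ)
    (hgr : ∀ b d, gr b d ≤ homogeneousSubmodule (V b) K (d + s b))
    [∀ b d, FiniteDimensional K (gr b d)]
    (G : ℕ → Submodule K (MvPolynomial (Σ b, V b) K)) [∀ d, FiniteDimensional K (G d)]
    (hG : ∀ (d : B → ℕ) (f : ∀ b, MvPolynomial (V b) K), (∀ b, f b ∈ gr b (d b)) →
      ∏ b, rename (Sigma.mk b) (f b) ∈ G (∑ b, d b))
    (Q : ℝ≥0∞) (hQ : Q ≠ ⊤) :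
    ∏ b, ∑' d, Q ^ d * (finrank K (gr b d) : ℝ≥0∞) ≤
      ∑' d, Q ^ d * (finrank K (G d) : ℝ≥0∞) := by
  lift Q to NNReal using hQ
  simp only [ENNReal.tsum_eq_iSup_nat]
  rw [prod_iSup_of_monotone]
  · refine iSup_le fun L => ?_
    refine le_trans ?_ (le_iSup (fun n => ∑ d ∈ Finset.range n,
      (Q : ℝ≥0∞) ^ d * (finrank K (G d) : ℝ≥0∞)) (Fintype.card B * L + 1))
    have h2 := graded_prod gr s hgr G hG (Q : ℝ) Q.2 L
    have h3 : ∏ b, ∑ d ∈ Finset.range L, Q ^ d * (finrank K (gr b d) : NNReal) ≤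
        ∑ d ∈ Finset.range (Fintype.card B * L + 1), Q ^ d * (finrank K (G d) : NNReal) := by
      rw [← NNReal.coe_le_coe]
      push_cast
      exact h2
    have h4 := ENNReal.coe_le_coe.2 h3
    push_cast at h4
    exact h4
  · intro b i j hij
    exact Finset.sum_le_sum_of_subset (Finset.range_mono hij)

theorem tsum_cauchy (Q : ℝ≥0∞) (hQ : Q < 1) (x y : ℕ → ℝ≥0∞)
    (h : ∀ l, ∑ d ∈ Finset.range (l + 1), x d ≤ y l) :
    ∑' d, Q ^ d * x d ≤ (1 - Q) * ∑' l, Q ^ l * y l := by
  have h1 : ∑' l, Q ^ l * ∑ d ∈ Finset.range (l + 1), x d =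
      (∑' i, Q ^ i) * ∑' d, Q ^ d * x d := by
    rw [← ENNReal.tsum_mul_right]
    simp only [← ENNReal.tsum_mul_left]
    rw [← ENNReal.tsum_prod (f := fun i d => Q ^ i * (Q ^ d * x d)),
      ← (Finset.HasAntidiagonal.sigmaAntidiagonalEquivProd (A := ℕ)).tsum_eq,
      ENNReal.tsum_sigma']
    refine tsum_congr fun l => ?_
    rw [tsum_fintype]
    simp only [Finset.HasAntidiagonal.sigmaAntidiagonalEquivProd_apply]
    rw [Finset.sum_coe_sort (Finset.HasAntidiagonal.antidiagonal l)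
      (fun p : ℕ × ℕ => Q ^ p.1 * (Q ^ p.2 * x p.2)),
      ← Finset.Nat.sum_antidiagonal_swap, Finset.Nat.sum_antidiagonal_eq_sum_range_succ_mk,
      Finset.mul_sum]
    refine Finset.sum_congr rfl fun d hd => ?_
    simp only [Prod.swap_prod_mk]
    rw [← mul_assoc, ← pow_add, Nat.sub_add_cancel (Nat.lt_succ_iff.1 (Finset.mem_range.1 hd))]
  have h2 : (1 - Q) * (1 - Q)⁻¹ = 1 := by
    refine ENNReal.mul_inv_cancel ?_ ?_
    · exact (tsub_pos_of_lt hQ).ne'
    · exact ne_top_of_le_ne_top ENNReal.one_ne_top tsub_le_self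
  calc ∑' d, Q ^ d * x d = (1 - Q) * ((∑' i, Q ^ i) * ∑' d, Q ^ d * x d) := by
        rw [ENNReal.tsum_geometric, ← mul_assoc, h2, one_mul]
    _ = (1 - Q) * ∑' l, Q ^ l * ∑ d ∈ Finset.range (l + 1), x d := by rw [h1]
    _ ≤ (1 - Q) * ∑' l, Q ^ l * y l :=
        mul_le_mul_right (ENNReal.tsum_le_tsum fun l => mul_le_mul_right (h l) _) _

open Pool.SDL

/-- The multiples of exact degree `d` of the products over the blocks. -/
noncomputable def Wd {σ κ : Type*} (B E : Type*) [Fintype B] (g : κ → MvPolynomial σ K) (d : ℕ) :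
    Submodule K (MvPolynomial ((B × σ) ⊕ E) K) :=
  Submodule.span K {f | ∃ (μ : ((B × σ) ⊕ E) →₀ ℕ) (k : B → κ), μ.degree = d ∧
    f = monomial μ 1 * ∏ b, rename (fun v => Sum.inl (b, v)) (g (k b))}

theorem Wd_le_homog {σ κ B E : Type*} [Fintype B] (g : κ → MvPolynomial σ K) (s : ℕ)
    (hg : ∀ k, (g k).IsHomogeneous s) (d : ℕ) :
    Wd B E g d ≤ homogeneousSubmodule ((B × σ) ⊕ E) K (d + Fintype.card B * s) := by
  rw [Wd, Submodule.span_le]
  rintro f ⟨μ, k, hμ, rfl⟩
  refine IsHomogeneous.mul (isHomogeneous_monomial 1 hμ) ?_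
  have h := IsHomogeneous.prod (R := K) (Finset.univ : Finset B)
    (fun b => rename (fun v => (Sum.inl (b, v) : (B × σ) ⊕ E)) (g (k b))) (fun _ => s)
    (fun b _ => (hg (k b)).rename_isHomogeneous)
  simpa using h

theorem Id_le_homog {σ κ : Type*} (g : κ → MvPolynomial σ K) (s : ℕ)
    (hg : ∀ k, (g k).IsHomogeneous s) (d : ℕ) :
    Pool.SDL.Id g d ≤ homogeneousSubmodule σ K (d + s) := by
  rw [Pool.SDL.Id, Submodule.span_le]
  rintro f ⟨μ, k, hμ, rfl⟩
  exact IsHomogeneous.mul (isHomogeneous_monomial 1 hμ) (hg k)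

theorem Vl_le_total {σ κ B E : Type*} [Fintype B] (g : κ → MvPolynomial σ K) (s : ℕ)
    (hg : ∀ k, (g k).IsHomogeneous s) (l : ℕ) :
    Vl B E g l ≤ restrictTotalDegree ((B × σ) ⊕ E) K (l + Fintype.card B * s) := by
  rw [Vl, Submodule.span_le]
  rintro f ⟨μ, k, hμ, rfl⟩
  rw [SetLike.mem_coe, mem_restrictTotalDegree]
  refine (totalDegree_mul _ _).trans (Nat.add_le_add ?_ ?_)
  · exact (totalDegree_monomial_le μ (1 : K)).trans hμ
  · have h := IsHomogeneous.prod (R := K) (Finset.univ : Finset B)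
      (fun b => rename (fun v => (Sum.inl (b, v) : (B × σ) ⊕ E)) (g (k b))) (fun _ => s)
      (fun b _ => (hg (k b)).rename_isHomogeneous)
    have h' := h.totalDegree_le
    simpa using h'

theorem finite_of_le_homog {σ : Type*} [Finite σ] (U : Submodule K (MvPolynomial σ K)) (n : ℕ)
    (h : U ≤ homogeneousSubmodule σ K n) : FiniteDimensional K U :=
  Submodule.finiteDimensional_of_le h

theorem sum_finrank_Wd_le {σ κ B E : Type*} [Fintype σ] [Fintype B] [Fintype E]
    (g : κ → MvPolynomial σ K) (s : ℕ) (hg : ∀ k, (g k).IsHomogeneous s) (l : ℕ) :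
    ∑ d ∈ Finset.range (l + 1), (finrank K (Wd B E g d) : ℝ≥0∞) ≤
      (finrank K (Vl B E g l) : ℝ≥0∞) := by
  have : ∀ d, FiniteDimensional K (Wd B E g d) := fun d =>
    finite_of_le_homog _ _ (Wd_le_homog g s hg d)
  have : FiniteDimensional K (Vl B E g l) :=
    Submodule.finiteDimensional_of_le (Vl_le_total g s hg l)
  have h1 := linearIndependent_graded (Wd B E g) (Fintype.card B * s) (l + 1)
    (Wd_le_homog g s hg)
  have hmem : ∀ x : Σ d : Fin (l + 1), Fin (finrank K (Wd B E g d)),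
      ((finBasis K (Wd B E g x.1) x.2 : Wd B E g x.1) : MvPolynomial ((B × σ) ⊕ E) K) ∈
        Vl B E g l := by
    intro x
    have hle : Wd B E g x.1 ≤ Vl B E g l := by
      rw [Wd, Vl]
      refine Submodule.span_mono ?_
      rintro f ⟨μ, k, hμ, rfl⟩
      exact ⟨μ, k, by rw [hμ]; exact Nat.lt_succ_iff.1 x.1.2, rfl⟩
    exact hle (Submodule.coe_mem _)
  have h2 : LinearIndependent K (fun x : Σ d : Fin (l + 1), Fin (finrank K (Wd B E g d)) =>
      (⟨_, hmem x⟩ : Vl B E g l)) :=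
    LinearIndependent.of_comp (Vl B E g l).subtype h1
  have h3 := h2.fintype_card_le_finrank
  rw [Fintype.card_sigma] at h3
  rw [Finset.sum_range]
  simp only [Fintype.card_fin] at h3
  exact_mod_cast h3

/-- The variables of the blocks: `σ` for the proper blocks, `E` for the block of free variables. -/
def VB (B : Type v) (σ E : Type w) : Option B → Type w
  | some _ => σ
  | none => E

/-- The variables of all the blocks. -/
def varEquiv (B : Type v) (σ E : Type w) : (Σ o, VB B σ E o) ≃ (B × σ) ⊕ E where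
  toFun
    | ⟨some b, x⟩ => Sum.inl (b, x)
    | ⟨none, x⟩ => Sum.inr x
  invFun
    | Sum.inl (b, x) => ⟨some b, x⟩
    | Sum.inr x => ⟨none, x⟩
  left_inv := by rintro ⟨_ | b, x⟩ <;> rfl
  right_inv := by rintro (⟨b, x⟩ | x) <;> rfl

/-- The generators of the graded pieces of the blocks. -/
def genS {κ : Type*} (B : Type v) (σ E : Type w) (g : κ → MvPolynomial σ K) :
    (o : Option B) → ℕ → Set (MvPolynomial (VB B σ E o) K)
  | some _, d => {f | ∃ (μ : σ →₀ ℕ) (k : κ), μ.degree = d ∧ f = monomial μ 1 * g k}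
  | none, d => {f | ∃ μ : E →₀ ℕ, μ.degree = d ∧ f = monomial μ 1}

theorem homog_le_span {E : Type*} (d : ℕ) : homogeneousSubmodule E K d ≤
    Submodule.span K {f | ∃ μ : E →₀ ℕ, μ.degree = d ∧ f = monomial μ 1} := by
  intro f hf
  rw [f.as_sum]
  refine Submodule.sum_mem _ fun μ hμ => ?_
  rw [show (monomial μ) (coeff μ f) = coeff μ f • (monomial μ (1 : K)) by
    rw [smul_monomial, smul_eq_mul, mul_one]]
  refine Submodule.smul_mem _ _ (Submodule.subset_span ⟨μ, ?_, rfl⟩)
  by_contra h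
  exact (mem_support_iff.1 hμ) (IsHomogeneous.coeff_eq_zero hf h)

theorem prod_mem_prod' {A : Type*} [CommRing A] [Algebra K A] {ι : Type*} (s : Finset ι)
    (M : ι → Submodule K A) (x : ι → A) (h : ∀ i ∈ s, x i ∈ M i) :
    ∏ i ∈ s, x i ∈ ∏ i ∈ s, M i := by
  classical
  induction s using Finset.induction_on with
  | empty => simp [Submodule.one_le.1 le_rfl]
  | insert a s ha ih =>
    rw [Finset.prod_insert ha, Finset.prod_insert ha]
    exact Submodule.mul_mem_mul (h a (Finset.mem_insert_self a s))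
      (ih fun i hi => h i (Finset.mem_insert_of_mem hi))

theorem M9_prod {B : Type v} {σ E : Type w} {κ : Type*} [Fintype B]
    (g : κ → MvPolynomial σ K) (d : Option B → ℕ) (f : ∀ o, MvPolynomial (VB B σ E o) K)
    (hf : ∀ o, f o ∈ Submodule.span K (genS B σ E g o (d o))) :
    rename (varEquiv B σ E) (∏ o, rename (Sigma.mk o) (f o)) ∈ Wd B E g (∑ o, d o) := by
  classical
  rw [map_prod]
  have h1 : ∀ o, rename (varEquiv B σ E) (rename (Sigma.mk o) (f o)) ∈
      Submodule.span K ((fun p => rename (varEquiv B σ E) (rename (Sigma.mk o) p)) ''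
        (genS B σ E g o (d o))) := by
    intro o
    have := Submodule.mem_map_of_mem (f := ((rename (varEquiv B σ E)).comp
      (rename (Sigma.mk o)) : MvPolynomial (VB B σ E o) K →ₐ[K]
        MvPolynomial ((B × σ) ⊕ E) K).toLinearMap) (hf o)
    rwa [Submodule.map_span] at this
  have h2 : ∏ o, rename (varEquiv B σ E) (rename (Sigma.mk o) (f o)) ∈
      ∏ o, Submodule.span K ((fun p => rename (varEquiv B σ E) (rename (Sigma.mk o) p)) ''
        (genS B σ E g o (d o))) := prod_mem_prod' _ _ _ fun o _ => h1 o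
  rw [Submodule.prod_span] at h2
  refine (Submodule.span_le.2 ?_) h2
  intro x hx
  rw [Set.mem_fintype_prod] at hx
  obtain ⟨p, hp, rfl⟩ := hx
  have hex : ∀ o, ∃ y, y ∈ genS B σ E g o (d o) ∧
      rename (varEquiv B σ E) (rename (Sigma.mk o) y) = p o := fun o => hp o
  choose y hy hyp using hex
  have hb : ∀ b : B, ∃ (μ : σ →₀ ℕ) (k : κ), μ.degree = d (some b) ∧
      y (some b) = monomial μ 1 * g k := fun b => hy (some b)
  choose μ k hμ hyk using hb
  obtain ⟨ν, hν, hyν⟩ : ∃ ν : E →₀ ℕ, ν.degree = d none ∧ y none = monomial ν 1 := hy none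
  refine Submodule.subset_span ⟨(∑ b, (μ b).mapDomain (fun v => Sum.inl (b, v))) +
    ν.mapDomain Sum.inr, k, ?_, ?_⟩
  · rw [Fintype.sum_option, map_add, map_sum, Finsupp.degree_mapDomain, hν, add_comm]
    congr 1
    exact Finset.sum_congr rfl fun b _ => by rw [Finsupp.degree_mapDomain, hμ b]
  · have h3 : ∀ b : B, p (some b) = monomial ((μ b).mapDomain (fun v => Sum.inl (b, v))) 1 *
        rename (fun v => Sum.inl (b, v)) (g (k b)) := by
      intro b
      rw [← hyp (some b), hyk b]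
      rw [rename_rename]
      have h4 : (varEquiv B σ E ∘ Sigma.mk (some b) : VB B σ E (some b) → (B × σ) ⊕ E) =
          (fun v => Sum.inl (b, v)) := rfl
      rw [h4]
      exact (map_mul (rename (fun v => (Sum.inl (b, v) : (B × σ) ⊕ E))) (monomial (μ b) (1 : K))
        (g (k b))).trans (by rw [rename_monomial])
    have h5 : p none = monomial (ν.mapDomain Sum.inr) 1 := by
      rw [← hyp none, rename_rename, hyν]
      have h4 : (varEquiv B σ E ∘ Sigma.mk none : VB B σ E none → (B × σ) ⊕ E) =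
          (fun v => Sum.inr v) := rfl
      rw [h4]
      exact rename_monomial (fun v => (Sum.inr v : (B × σ) ⊕ E)) ν (1 : K)
    rw [Fintype.prod_option, h5, Finset.prod_congr rfl fun b _ => h3 b,
      Finset.prod_mul_distrib, ← monomial_sum_one, ← mul_assoc, monomial_mul, one_mul, add_comm]

theorem genS_le {κ : Type*} (B : Type v) (σ E : Type w) (g : κ → MvPolynomial σ K) (s : ℕ)
    (hg : ∀ k, (g k).IsHomogeneous s) (o : Option B) (d : ℕ) :
    Submodule.span K (genS B σ E g o d) ≤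
      homogeneousSubmodule (VB B σ E o) K (d + o.elim 0 fun _ => s) := by
  cases o with
  | none =>
    rw [Submodule.span_le]
    rintro f ⟨μ, hμ, rfl⟩
    exact isHomogeneous_monomial 1 hμ
  | some b => exact Id_le_homog g s hg d

instance {B : Type v} {σ E : Type w} [Finite σ] [Finite E] (o : Option B) :
    Finite (VB B σ E o) := by
  cases o with
  | none => exact ‹Finite E›
  | some b => exact ‹Finite σ›

/-- M9 with the series of the free variables as a hypothesis. -/
theorem M9_aux {B : Type v} {σ E : Type w} {κ : Type*} [Fintype σ] [Fintype B] [Fintype E]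
    (g : κ → MvPolynomial σ K) (s : ℕ) (hg : ∀ k, (g k).IsHomogeneous s) (Q : ℝ≥0∞) (hQ : Q < 1)
    (hE : ((1 - Q)⁻¹) ^ Fintype.card E ≤
      ∑' e, Q ^ e * (finrank K (homogeneousSubmodule E K e) : ℝ≥0∞)) :
    (∑' d, Q ^ d * (finrank K (Pool.SDL.Id g d) : ℝ≥0∞)) ^ Fintype.card B ≤
      (1 - Q) ^ (Fintype.card E + 1) *
        ∑' l, Q ^ l * (finrank K (Vl B E g l) : ℝ≥0∞) := by
  classical
  let e : MvPolynomial (Σ o, VB B σ E o) K ≃ₐ[K] MvPolynomial ((B × σ) ⊕ E) K :=
    renameEquiv K (varEquiv B σ E)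
  let G : ℕ → Submodule K (MvPolynomial (Σ o, VB B σ E o) K) := fun d =>
    (Wd B E g d).map e.symm.toLinearEquiv.toLinearMap
  have hWfin : ∀ d, FiniteDimensional K (Wd B E g d) := fun d =>
    finite_of_le_homog _ _ (Wd_le_homog g s hg d)
  have hGr : ∀ d, finrank K (G d) = finrank K (Wd B E g d) := fun d =>
    LinearEquiv.finrank_map_eq e.symm.toLinearEquiv (Wd B E g d)
  have hfin : ∀ o d, FiniteDimensional K (Submodule.span K (genS B σ E g o d)) := fun o d =>
    finite_of_le_homog _ _ (genS_le B σ E g s hg o d)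
  have key := graded_prod_series (fun o d => Submodule.span K (genS B σ E g o d))
    (fun o => o.elim 0 fun _ => s) (genS_le B σ E g s hg) G (fun d f hf => by
      refine ⟨_, M9_prod g d f hf, ?_⟩
      exact e.symm_apply_apply _) Q (ne_top_of_lt hQ)
  rw [Fintype.prod_option] at key
  have h1 : ∑' d, Q ^ d * (finrank K (Submodule.span K (genS B σ E g none d)) : ℝ≥0∞) ≥
      ((1 - Q)⁻¹) ^ Fintype.card E := by
    refine hE.trans (ENNReal.tsum_le_tsum fun d => mul_le_mul_right ?_ _)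
    have h0 : FiniteDimensional K
        (Submodule.span K {f | ∃ μ : E →₀ ℕ, μ.degree = d ∧ f = monomial μ (1 : K)}) :=
      hfin none d
    exact_mod_cast Submodule.finrank_mono (homog_le_span (K := K) (E := E) d)
  have h2 : ∏ b : B, ∑' d, Q ^ d *
      (finrank K (Submodule.span K (genS B σ E g (some b) d)) : ℝ≥0∞) =
      (∑' d, Q ^ d * (finrank K (Pool.SDL.Id g d) : ℝ≥0∞)) ^ Fintype.card B := by
    have h0 : ∀ b ∈ (Finset.univ : Finset B), ∑' d, Q ^ d *
        (finrank K (Submodule.span K (genS B σ E g (some b) d)) : ℝ≥0∞) =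
        ∑' d, Q ^ d * (finrank K (Pool.SDL.Id g d) : ℝ≥0∞) := fun b _ => rfl
    rw [Finset.prod_congr rfl h0, Finset.prod_const, Finset.card_univ]
  rw [h2] at key
  have h3 := (mul_le_mul_left h1 ((∑' d, Q ^ d *
    (finrank K (Pool.SDL.Id g d) : ℝ≥0∞)) ^ Fintype.card B)).trans key
  simp only [hGr] at h3
  have h4 := h3.trans (tsum_cauchy Q hQ (fun d => (finrank K (Wd B E g d) : ℝ≥0∞))
    (fun l => (finrank K (Vl B E g l) : ℝ≥0∞)) (sum_finrank_Wd_le g s hg))
  have h5 : (1 - Q) ^ Fintype.card E * ((1 - Q)⁻¹) ^ Fintype.card E = 1 := by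
    rw [← mul_pow, ENNReal.mul_inv_cancel (tsub_pos_of_lt hQ).ne'
      (ne_top_of_le_ne_top ENNReal.one_ne_top tsub_le_self), one_pow]
  calc (∑' d, Q ^ d * (finrank K (Pool.SDL.Id g d) : ℝ≥0∞)) ^ Fintype.card B
      = (1 - Q) ^ Fintype.card E * (((1 - Q)⁻¹) ^ Fintype.card E *
        (∑' d, Q ^ d * (finrank K (Pool.SDL.Id g d) : ℝ≥0∞)) ^ Fintype.card B) := by
        rw [← mul_assoc, h5, one_mul]
    _ ≤ (1 - Q) ^ Fintype.card E * ((1 - Q) *
        ∑' l, Q ^ l * (finrank K (Vl B E g l) : ℝ≥0∞)) := mul_le_mul_right h4 _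
    _ = _ := by rw [← mul_assoc, ← pow_succ]

end Pool.Agent.Helper72.SDet

namespace Pool.SDL

universe u v w

variable {K : Type u} [Field K]

/-- M9: the shifts of the products over the blocks. -/
theorem M9 {σ : Type w} {κ : Type*} [Fintype σ] (B : Type v) (E : Type w) [Fintype B]
    [Fintype E] (g : κ → MvPolynomial σ K) (s : ℕ)
    (hg : ∀ k, (g k).IsHomogeneous s) (Q : ℝ≥0∞) (hQ : Q < 1) :
    (∑' d, Q ^ d * (Module.finrank K (Id g d) : ℝ≥0∞)) ^ Fintype.card B ≤
      (1 - Q) ^ (Fintype.card E + 1) *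
        ∑' l, Q ^ l * (Module.finrank K (Vl B E g l) : ℝ≥0∞) :=
  Pool.Agent.Helper72.SDet.M9_aux g s hg Q hQ (Helper86.SDET.tsum_mon (K := K) (σ := E) Q).ge

end Pool.SDL
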